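import Pool.Agent.R70.BT2.Mz3

/-!
# The semialgebraic form of Mazur's conjecture for hypersurfaces of bidegree `(2, 2)`

Let `F(x, y) = ∑ c_ijkl x_i x_j y_k y_l` be a form of bidegree `(2, 2)` with rational coefficients,
and `X` the hypersurface `F = 0` in `ℙᵃ × ℙᵇ` (for `a = b = 2` it is a Verra threefold, with two
conic bundle structures over the plane). We work with the coordinates `(x, y)`, that is with the
affine cone over `X`. For a point `y` let `Q_y` be the quadric `F(·, y) = 0`.

(1) Let `a, b ≥ 2`, let `X` be smooth, and suppose that for all complex points `y` the linear forms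
`∂_y F(x', y)`, `x' ∈ Q_y`, are not all proportional, and the same with `x` and `y` exchanged (this
holds for all forms outside of a proper closed subset of the space of all forms; we do not prove
this remark). Then the closure of the set of the rational points of `X` in the set of the real
points is semialgebraic over `ℚ`; it is also open in the set of the real points, hence a union of
connected components of `X(ℝ)`.

For arbitrary `F`, a real point `(x, y)` of `X` satisfies the condition `(G)`, if there are two
complex points `x'` and `x''` of `Q_y`, such that `x` and `x'`, as well as `x'` and `x''`, are not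
conjugate with respect to `Q_y` (the polar form of `F(·, y)` does not vanish), and such that the
linear forms `∂_y F(x', y)` and `∂_y F(x'', y)` are linearly independent. Let `V` be the set of the
real points of `X` which satisfy `(G)`, or which satisfy it after an exchange of `x` and `y`.

(2) The intersection of `V` with the closure of the set of the rational points of `X` is
semialgebraic over `ℚ`.

(3) If the closure of the set of the rational points of `X` with `x ≠ 0` and `y ≠ 0`, which are not
in `V`, is semialgebraic over `ℚ` (for instance if there are no such points), then the closure of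
the set of the rational points of `X` is semialgebraic over `ℚ`.

The proof shows that the closure is open in `X(ℝ)` at all its points in `V`.
-/

set_option autoImplicit false

namespace Pool.Agent.Results.MP_42de19_nt.BidegreeTwoTwo

open MvPolynomial Pool.Agent.R70.BT Pool.Agent.R70.BT2 Pool.Agent.TH729.SQ Pool.Agent.H581R2
  Topology

/-- Semialgebraic sets defined over `ℚ`: the finite unions of sets
`{p = 0, q₁ > 0, …, q_k > 0}`, where `p` and the `qᵢ` are polynomials with rational
coefficients. -/
def Semialgebraic {n : ℕ} (S : Set (Fin n → ℝ)) : Prop :=
  ∃ (m : ℕ) (P : Fin m → MvPolynomial (Fin n) ℚ) (G : Fin m → Finset (MvPolynomial (Fin n) ℚ)),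
    S = {x : Fin n → ℝ | ∃ j : Fin m, (aeval x (P j) : ℝ) = 0 ∧
      ∀ g ∈ G j, (0 : ℝ) < aeval x g}

theorem Semialgebraic.sa {n : ℕ} {S : Set (Fin n → ℝ)} (h : Semialgebraic S) : SA S := by
  obtain ⟨m, P, G, rfl⟩ := h
  refine SAP.exists_fin fun j => SAP.and (SAP.eq_zero (PF.aeval (P j))) ?_
  exact SAP.forall_mem (G j) fun g _ => SAP.pos (PF.aeval g)

/-- **The closure of the set of the rational points of a hypersurface of bidegree `(2, 2)`.**
The real points are vectors `z` of length `A + B`, with the two groups of coordinates `xs A B z`
and `ys A B z`. -/
theorem result {A B : ℕ} (c : Fin A → Fin A → Fin B → Fin B → ℚ) :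
    -- (1) general smooth hypersurfaces
    (3 ≤ A → 3 ≤ B → (General fun i j k l => ((c i j k l : ℚ) : ℂ)) →
      Semialgebraic (closure (ratPts c)) ∧
      ∀ T ∈ closure (ratPts c), xs A B T ≠ 0 → ys A B T ≠ 0 → ∃ U ∈ 𝓝 T, ∀ S ∈ U,
        form (fun i j k l => algebraMap ℚ ℝ (c i j k l)) (xs A B S) (ys A B S) = 0 →
          S ∈ closure (ratPts c)) ∧
    -- (2) the closure in the set of the good points
    Semialgebraic (closure (ratPts c) ∩ GoodSet c) ∧
    -- (3) the closure
    (Semialgebraic (closure {z ∈ ratPts c | xs A B z ≠ 0 ∧ ys A B z ≠ 0 ∧ z ∉ GoodSet c}) →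
      Semialgebraic (closure (ratPts c))) :=
  ⟨fun hA hB hg => ⟨SA.frozen (sa_general hA hB hg), fun _ hT hx hy =>
    open_general hA hB hg hT hx hy⟩, SA.frozen (sa_inter c), fun h => SA.frozen (sa_closure c h.sa)⟩

end Pool.Agent.Results.MP_42de19_nt.BidegreeTwoTwo
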