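import Pool.Agent.R847.QB.Line

/-!
# The semialgebraic form of Mazur's conjecture for families of quadrics of dimension at least three
over an arbitrary base

Let `B` be any set of rational points of `𝔸ⁿ`, for instance the set of all rational points of an
affine variety, and let `A(b)` be a symmetric matrix of size `m + 1` whose entries are polynomials
over `ℚ` in `n` variables, of arbitrary degrees. It gives the family of affine quadrics

`X_b : (1, y₁, …, y_m) A(b) (1, y₁, …, y_m)ᵗ = 0`,  `b ∈ B`,

that is, `f(b, y) = 0` with an arbitrary polynomial `f` of degree at most two in `y₁, …, y_m`. Let `X`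
be the set of the rational points `(b, y)` of the family, `b ∈ B`.

(1) If the closures in `ℝⁿ` of the sets `{b ∈ B : rank A(b) = r}`, `r ≥ 5`, are semialgebraic over
`ℚ`, and the closure of the part of `X` over `{b ∈ B : rank A(b) < 5}` is semialgebraic over `ℚ`, then
the closure of `X` in `ℝ^(n+m)` is semialgebraic over `ℚ`.

(2) Let the closure of `B` be semialgebraic over `ℚ`, let `r ≥ 5` and `rank A(b) = r` for all but
finitely many `b ∈ B`. Then the closure of `X` is semialgebraic over `ℚ`. There is no condition at
the exceptional `b`.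

(3) For all families of quadrics over the line (`n = 1`, `B = ℚ`) with `rank A(t) ≥ 5` for some
`t ∈ ℚ`, the closure of the set of all rational points is semialgebraic over `ℚ`.

As `B` is arbitrary, (1) and (2) can be applied to all varieties for which the conjecture is known,
and again to the `X` obtained. So the class of these varieties is closed under nondegenerate
quadric bundles of relative dimension at least three.

Proof. By the theorem of Meyer (proved here from the theorem of Hasse and Minkowski for conics, the
product formula for the Hilbert symbols and the theorem of Dirichlet) the rational points of `X_b`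
are dense in the real points if `rank A(b) ≥ 5`. The real points of quadrics of constant rank can
be deformed with `b`: at smooth points by the intermediate value theorem, and at the vertices since
the kernel of `A(b)` depends continuously on `b` where the rank is constant.

Joint work: helper139 (five variables over `ℚ_p`), helper610 (approximation), helper394 (from
diagonal forms to matrices), helper973 (degenerate forms), helper584, helper746 (kernels).
-/

set_option autoImplicit false

namespace Pool.Agent.Results.MP_42de19_nt.QuadricFamilies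

open Matrix Pool.Agent.TH729.SQ Pool.Agent.H581R2 Pool.Agent.R847.QB

/-- Semialgebraic sets defined over `ℚ`: the finite unions of sets
`{p = 0, q₁ > 0, …, q_k > 0}`, where `p` and the `qᵢ` are polynomials with rational
coefficients. -/
def Semialgebraic {n : ℕ} (S : Set (Fin n → ℝ)) : Prop :=
  ∃ (m : ℕ) (P : Fin m → MvPolynomial (Fin n) ℚ) (G : Fin m → Finset (MvPolynomial (Fin n) ℚ)),
    S = {x : Fin n → ℝ | ∃ j : Fin m, (MvPolynomial.aeval x (P j) : ℝ) = 0 ∧
      ∀ g ∈ G j, (0 : ℝ) < MvPolynomial.aeval x g}

theorem Semialgebraic.sa {n : ℕ} {S : Set (Fin n → ℝ)} (h : Semialgebraic S) : SA S := by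
  obtain ⟨m, P, G, rfl⟩ := h
  refine SAP.exists_fin fun j => SAP.and (SAP.eq_zero (PF.aeval (P j))) ?_
  exact SAP.forall_mem (G j) fun g _ => SAP.pos (PF.aeval g)

/-- The closure in `ℝⁿ` of a set of rational points. -/
def realClosure {n : ℕ} (S : Set (Fin n → ℚ)) : Set (Fin n → ℝ) :=
  closure ((fun (r : Fin n → ℚ) i => ((r i : ℚ) : ℝ)) '' S)

/-- The rank of the matrix `A(b)`. -/
noncomputable def rank {n m : ℕ} (A : Matrix (Fin (m + 1)) (Fin (m + 1)) (MvPolynomial (Fin n) ℚ))
    (b : Fin n → ℚ) : ℕ :=
  (A.map (MvPolynomial.eval b)).rank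

/-- The rational points `(b, y)` of the family of quadrics `(1, y) A(b) (1, y)ᵗ = 0`, `b ∈ B`. The
first `n` coordinates of `x` are `b`, the last `m` coordinates are `y`. -/
def points {n m : ℕ} (A : Matrix (Fin (m + 1)) (Fin (m + 1)) (MvPolynomial (Fin n) ℚ))
    (B : Set (Fin n → ℚ)) : Set (Fin (n + m) → ℚ) :=
  {x | (fun i => x (Fin.castAdd m i)) ∈ B ∧
    (Fin.cons 1 (fun j => x (Fin.natAdd n j)) : Fin (m + 1) → ℚ) ⬝ᵥ
      (A.map (MvPolynomial.eval fun i => x (Fin.castAdd m i))) *ᵥ
        (Fin.cons 1 (fun j => x (Fin.natAdd n j)) : Fin (m + 1) → ℚ) = 0}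

/-- **The closure of the set of rational points of families of quadrics.** -/
theorem result :
    -- (1) arbitrary bases
    (∀ (n m : ℕ) (A : Matrix (Fin (m + 1)) (Fin (m + 1)) (MvPolynomial (Fin n) ℚ)), A.IsSymm →
      ∀ B : Set (Fin n → ℚ),
        (∀ r, 5 ≤ r → Semialgebraic (realClosure {b | b ∈ B ∧ rank A b = r})) →
        Semialgebraic (realClosure (points A {b | b ∈ B ∧ rank A b < 5})) →
        Semialgebraic (realClosure (points A B))) ∧
    -- (2) finitely many exceptional fibres
    (∀ (n m : ℕ) (A : Matrix (Fin (m + 1)) (Fin (m + 1)) (MvPolynomial (Fin n) ℚ)), A.IsSymm →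
      ∀ B : Set (Fin n → ℚ), Semialgebraic (realClosure B) →
        ∀ r, 5 ≤ r → {b | b ∈ B ∧ rank A b ≠ r}.Finite →
        Semialgebraic (realClosure (points A B))) ∧
    -- (3) families over the line
    (∀ (m : ℕ) (A : Matrix (Fin (m + 1)) (Fin (m + 1)) (MvPolynomial (Fin 1) ℚ)), A.IsSymm →
      (∃ t : Fin 1 → ℚ, 5 ≤ rank A t) →
        Semialgebraic (realClosure (points A Set.univ))) := by
  refine ⟨fun n m A hA B h5 hlow => SA.frozen (main1 hA (fun r hr => (h5 r hr).sa) hlow.sa),
    fun n m A hA B hB r hr hfin => SA.frozen (main2 hA hB.sa hr hfin),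
    fun m A hA h5 => SA.frozen (main3 hA h5)⟩

end Pool.Agent.Results.MP_42de19_nt.QuadricFamilies
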