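import Pool.Agent.R847.QV.Dg

/-!
# The semialgebraic form of Mazur's conjecture: families of quadrics with several parameters and
their vertices (helper847)

Let `X ⊆ 𝔸^(n+m)` be the hypersurface

`f(b, y) = (1, y) A(b) (1, y)ᵗ = 0`,  `b = (b₁, …, b_n)`, `y = (y₁, …, y_m)`, `m ≥ 4`,

where `A` is a symmetric matrix of polynomials over `ℚ` in `b` with `det A ≠ 0`; that is, `f` is a
polynomial over `ℚ` of degree at most two in the `m ≥ 4` variables `y`, of arbitrary degree in the
parameters `b`, with nonzero discriminant. The vertices of `X` are the points with `A(b) (1, y)ᵗ = 0`,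
that is `f = 0` and `∂f/∂y = 0`.

(1) Every real point of `X` which is not a vertex is a limit of rational points of `X`; so the
closure of `X(ℚ)` is the union of the closure of the set of these real points and the closure of
the set of the rational vertices.

(2) If the closure of the set of the rational vertices is semialgebraic over `ℚ`, then so is the
closure of `X(ℚ)`.

(3) This holds if there are only finitely many rational vertices.

(4) The closure of `X(ℚ)` is semialgebraic over `ℚ` for
`X : c₀ ∏ⱼ l₀ⱼ(b) + ∑ᵢ cᵢ ∏ⱼ lᵢⱼ(b) yᵢ² = 0`, with polynomials `lᵢⱼ ≠ 0` of degree at most one and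
rational numbers `cᵢ ≠ 0`.

There is no restriction on the number of the parameters, on the degenerate fibres and on the
singularities of `X`. Idea of the proof: near `b` there are rational `b'` with `det A(b') ≠ 0`. The
fibre over `b'` has real points near the given point, and by Meyer's theorem (proved in the files) its
rational points are dense in its real points.
-/

set_option autoImplicit false

namespace Pool.Agent.Results.MP_42de19_nt.QuadricVertices

open Matrix Pool.Agent.TH729.SQ Pool.Agent.H581R2 Pool.Agent.R847.QB Pool.Agent.R847.QV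

/-- Semialgebraic sets defined over `ℚ`: the finite unions of sets
`{p = 0, q₁ > 0, …, q_k > 0}`, where `p` and the `qᵢ` are polynomials with rational
coefficients. -/
def Semialgebraic {n : ℕ} (S : Set (Fin n → ℝ)) : Prop :=
  ∃ (m : ℕ) (P : Fin m → MvPolynomial (Fin n) ℚ) (G : Fin m → Finset (MvPolynomial (Fin n) ℚ)),
    S = {x : Fin n → ℝ | ∃ j : Fin m, (MvPolynomial.aeval x (P j) : ℝ) = 0 ∧
      ∀ g ∈ G j, (0 : ℝ) < MvPolynomial.aeval x g}

theorem Semialgebraic.sa {n : ℕ} {S : Set (Fin n → ℝ)} (h : Semialgebraic S) : SA S := by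
  obtain ⟨m, P, G, rfl⟩ := h
  refine SAP.exists_fin fun j => SAP.and (SAP.eq_zero (PF.aeval (P j))) ?_
  exact SAP.forall_mem (G j) fun g _ => SAP.pos (PF.aeval g)

/-- The closure in `ℝⁿ` of a set of rational points. -/
def realClosure {n : ℕ} (S : Set (Fin n → ℚ)) : Set (Fin n → ℝ) :=
  closure ((fun (r : Fin n → ℚ) i => ((r i : ℚ) : ℝ)) '' S)

/-- The parameters `b`: the first `n` coordinates. -/
def par {R : Type} {n m : ℕ} (x : Fin (n + m) → R) : Fin n → R := fun i => x (Fin.castAdd m i)

/-- The vector `(1, y)`, where `y` are the last `m` coordinates. -/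
def vec {R : Type} [One R] {n m : ℕ} (x : Fin (n + m) → R) : Fin (m + 1) → R :=
  Fin.cons 1 fun j => x (Fin.natAdd n j)

/-- The rational points `(b, y)` with `(1, y) A(b) (1, y)ᵗ = 0`. -/
def points {n m : ℕ} (A : Matrix (Fin (m + 1)) (Fin (m + 1)) (MvPolynomial (Fin n) ℚ)) :
    Set (Fin (n + m) → ℚ) :=
  {x | vec x ⬝ᵥ A.map (MvPolynomial.eval (par x)) *ᵥ vec x = 0}

/-- The rational vertices: `A(b) (1, y)ᵗ = 0`. -/
def vertices {n m : ℕ} (A : Matrix (Fin (m + 1)) (Fin (m + 1)) (MvPolynomial (Fin n) ℚ)) :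
    Set (Fin (n + m) → ℚ) :=
  {x | A.map (MvPolynomial.eval (par x)) *ᵥ vec x = 0}

/-- The real points `(b, y)` with `(1, y) A(b) (1, y)ᵗ = 0` which are not vertices. -/
def realNonvertices {n m : ℕ}
    (A : Matrix (Fin (m + 1)) (Fin (m + 1)) (MvPolynomial (Fin n) ℚ)) :
    Set (Fin (n + m) → ℝ) :=
  {x | vec x ⬝ᵥ (A.map fun p => (MvPolynomial.aeval (par x) p : ℝ)) *ᵥ vec x = 0 ∧
    (A.map fun p => (MvPolynomial.aeval (par x) p : ℝ)) *ᵥ vec x ≠ 0}

/-- **The closure of the set of rational points of families of quadrics and their vertices.** -/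
theorem result :
    (∀ (n m : ℕ) (A : Matrix (Fin (m + 1)) (Fin (m + 1)) (MvPolynomial (Fin n) ℚ)),
      4 ≤ m → A.IsSymm → A.det ≠ 0 →
        -- (1)
        realClosure (points A) = closure (realNonvertices A) ∪ realClosure (vertices A) ∧
        -- (2)
        (Semialgebraic (realClosure (vertices A)) → Semialgebraic (realClosure (points A))) ∧
        -- (3)
        ((vertices A).Finite → Semialgebraic (realClosure (points A)))) ∧
    -- (4)
    (∀ (n m : ℕ), 4 ≤ m → ∀ (c : Fin (m + 1) → ℚ) (d : Fin (m + 1) → ℕ)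
      (l : ∀ i, Fin (d i) → MvPolynomial (Fin n) ℚ), (∀ i, c i ≠ 0) →
      (∀ i j, l i j ≠ 0 ∧ (l i j).totalDegree ≤ 1) →
      Semialgebraic (realClosure {x : Fin (n + m) → ℚ |
        ∑ i, c i * (∏ j, MvPolynomial.eval (par x) (l i j)) * vec x i ^ 2 = 0})) := by
  have hpts : ∀ (n m : ℕ) (A : Matrix (Fin (m + 1)) (Fin (m + 1)) (MvPolynomial (Fin n) ℚ)),
      points A = pts A Set.univ := by
    intro n m A
    ext x
    exact ⟨fun h => ⟨Set.mem_univ _, h⟩, fun h => h.2⟩
  refine ⟨?_, ?_⟩
  · intro n m A hm hA hdet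
    refine ⟨?_, ?_, ?_⟩
    · rw [hpts]
      have h1 := closure_eq hA hm hdet
      have h2 : {x : Fin (n + m) → ℝ | fb x ⬝ᵥ atr A (bs x) *ᵥ fb x = 0 ∧
          ¬ ∀ i, (atr A (bs x) *ᵥ fb x) i = 0} = realNonvertices A := by
        ext x
        constructor
        · rintro ⟨h3, h4⟩
          exact ⟨h3, fun h => h4 fun i => congrFun h i⟩
        · rintro ⟨h3, h4⟩
          exact ⟨h3, fun h => h4 (funext h)⟩
      rw [h2] at h1
      exact h1
    · intro h
      rw [hpts]
      exact SA.frozen (mainSA hA hm hdet h.sa)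
    · intro h
      rw [hpts]
      exact SA.frozen (finiteSA hA hm hdet h)
  · intro n m hm c d l hc hl
    have h1 := SA.frozen (diagSA hm hc d l (fun i j => (hl i j).1) fun i j => (hl i j).2)
    have h2 : pts (DQ c d l) Set.univ = {x : Fin (n + m) → ℚ |
        ∑ i, c i * (∏ j, MvPolynomial.eval (par x) (l i j)) * vec x i ^ 2 = 0} := by
      ext x
      have h3 := quad_DQ c d l (bs x) (fb x)
      constructor
      · rintro ⟨-, h⟩
        rw [h3] at h
        exact h
      · intro h
        refine ⟨Set.mem_univ _, ?_⟩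
        rw [h3]
        exact h
    rw [h2] at h1
    exact h1

end Pool.Agent.Results.MP_42de19_nt.QuadricVertices
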