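import Pool.Agent.R70.OC.Mz

/-!
# The semialgebraic form of Mazur's conjecture and families of self-maps

Let `X` be an affine variety over `ℚ`, given by `p = 0`, `g ≠ 0`. A family of self-maps of `X` is a
rational map `Φ : 𝔸ᵐ × X ⇢ X` over `ℚ`. Examples are the families of rational curves through the
points of `X`, for instance the conics of a conic fibration (`Φ(0, x) = x`, and `t ↦ Φ(t, x)`
parametrizes the conic through `x`), the compositions of such families, and families of birational
self-maps such as `x ↦ (x ∘ y₀) ∘ y(t)` on a cubic hypersurface, where `x ∘ y` is the third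
intersection point of the line through `x` and `y`.

Let `V ⊆ X(ℝ)` be the set of the points `T` at which the equations have maximal rank, and such that
one of finitely many given families has for some real parameters `t` the properties `Φ(t, T) = T`
and `Φ(·, T)` is submersive at `t`. (For a family with `Φ(0, x) = x` and submersive `Φ(·, x)` at `0`
for general `x` this contains all the real points of a dense open subset of `X`.)

(1) The intersection of `V` with the closure of `X(ℚ)` is semialgebraic over `ℚ`.

(2) If the closure of the set of the rational points which are not in `V` is semialgebraic over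
`ℚ` (for instance if there are only finitely many such points), then the closure of `X(ℚ)` is
semialgebraic over `ℚ`.

(3) In this case also the closure of the set of the values of rational functions at the rational
points of products of such varieties and affine spaces is semialgebraic over `ℚ`.
-/

set_option autoImplicit false

namespace Pool.Agent.Results.MP_42de19_nt.SelfMapFamilies

open MvPolynomial Pool.Agent.R70.OC Pool.Agent.TH729.SQ Pool.Agent.H581R2

/-- Semialgebraic sets defined over `ℚ`: the finite unions of sets
`{p = 0, q₁ > 0, …, q_k > 0}`, where `p` and the `qᵢ` are polynomials with rational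
coefficients. -/
def Semialgebraic {n : ℕ} (S : Set (Fin n → ℝ)) : Prop :=
  ∃ (m : ℕ) (P : Fin m → MvPolynomial (Fin n) ℚ) (G : Fin m → Finset (MvPolynomial (Fin n) ℚ)),
    S = {x : Fin n → ℝ | ∃ j : Fin m, (aeval x (P j) : ℝ) = 0 ∧
      ∀ g ∈ G j, (0 : ℝ) < aeval x g}

theorem Semialgebraic.sa {n : ℕ} {S : Set (Fin n → ℝ)} (h : Semialgebraic S) : SA S := by
  obtain ⟨m, P, G, rfl⟩ := h
  refine SAP.exists_fin fun j => SAP.and (SAP.eq_zero (PF.aeval (P j))) ?_
  exact SAP.forall_mem (G j) fun g _ => SAP.pos (PF.aeval g)

/-- **The closure of the set of the rational points of a variety with families of self-maps.** -/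
theorem result :
    -- (1) the closure in the set of the good points
    (∀ (N c : ℕ) (p : Fin c → MvPolynomial (Fin N) ℚ) (g : MvPolynomial (Fin N) ℚ) (q : ℕ)
      (m : Fin q → ℕ) (F : ∀ k, Family p g (m k)),
      Semialgebraic (closure (ratPts p g) ∩ Good p g F)) ∧
    -- (2) the closure
    (∀ (N c : ℕ) (p : Fin c → MvPolynomial (Fin N) ℚ) (g : MvPolynomial (Fin N) ℚ) (q : ℕ)
      (m : Fin q → ℕ) (F : ∀ k, Family p g (m k)),
      Semialgebraic (closure (ratPts p g \ Good p g F)) → Semialgebraic (closure (ratPts p g))) ∧
    -- (3) the closure of the set of the values of rational functions on products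
    (∀ (J κ : Type) [Finite J] [Finite κ] (N c : ℕ) (p : J → Fin c → MvPolynomial (Fin N) ℚ)
      (g : J → MvPolynomial (Fin N) ℚ) (q : ℕ) (m : Fin q → ℕ)
      (F : ∀ j k, Family (p j) (g j) (m k)),
      (∀ j, Semialgebraic (closure (ratPts (p j) (g j) \ Good (p j) (g j) (F j)))) →
      ∀ (n : ℕ) (a : Fin n → MvPolynomial ((J × Fin N) ⊕ κ) ℚ)
        (b : MvPolynomial ((J × Fin N) ⊕ κ) ℚ),
        Semialgebraic (closure {y : Fin n → ℝ | ∃ (x : J → Fin N → ℚ) (u : κ → ℚ),
          (∀ j, OnX (p j) (g j) (RingHom.id ℚ) (x j)) ∧
          eval (Sum.elim (fun s => x s.1 s.2) u) b ≠ 0 ∧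
          ∀ k, y k = ((eval (Sum.elim (fun s => x s.1 s.2) u) (a k) /
            eval (Sum.elim (fun s => x s.1 s.2) u) b : ℚ) : ℝ)})) := by
  refine ⟨fun N c p g q m F => SA.frozen (sa_inter p g F),
    fun N c p g q m F h => SA.frozen (sa_closure p g F h.sa), ?_⟩
  intro J κ _ _ N c p g q m F h n a b
  refine SA.frozen (values_main (fun j => {x : Fin N → ℚ | OnX (p j) (g j) (RingHom.id ℚ) x})
    (fun j => ?_) a b)
  exact sa_closure (p j) (g j) (F j) (h j).sa

end Pool.Agent.Results.MP_42de19_nt.SelfMapFamilies
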